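import Mathlib
import Pool.Agent.H753R2.FR.T_A1

set_option autoImplicit false

/-! Flow polynomials of minors: the circuit inequality and the induction. -/

namespace Pool.Agent.TH386.FG

open Finset Pool.Agent.H753R2.FR

section P
variable {V I : Type} [DecidableEq V] [DecidableEq I] [Fintype V] [Fintype I] (G : MG V I)

/-- the flow polynomial of the minor (contract `X`, keep `S`, delete the rest), times a power of `q` -/
noncomputable def P (q : ℝ) (X S : Finset I) : ℝ :=
  ∑ A ∈ S.powerset, (-1 : ℝ) ^ (S.card + A.card) * q ^ (A.card + cl (conn G (X ∪ A)))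

/-- the minor has no bridge -/
def Br (X S : Finset I) : Prop := ∀ e ∈ S, conn G (X ∪ S.erase e) (G.x e) (G.y e)

variable {G}

theorem conn_edge {A : Finset I} {e : I} (he : e ∈ A) : conn G A (G.x e) (G.y e) :=
  (conn_le_iff G).1 le_rfl e he

theorem P_congr {q : ℝ} {X X' : Finset I} (h : conn G X = conn G X') (S : Finset I) :
    P G q X S = P G q X' S := by
  unfold P
  refine Finset.sum_congr rfl fun A _ => ?_
  rw [conn_union, conn_union, h]

theorem P_insert {q : ℝ} {X S : Finset I} {e : I} (he : e ∉ S) :
    P G q X (insert e S) = q * P G q (insert e X) S - P G q X S := by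
  unfold P
  rw [Finset.sum_powerset_insert he, Finset.mul_sum, ← Finset.sum_add_distrib,
    ← Finset.sum_sub_distrib]
  refine Finset.sum_congr rfl fun A hA => ?_
  have hA' : A ⊆ S := Finset.mem_powerset.1 hA
  have heA : e ∉ A := fun h => he (hA' h)
  rw [Finset.card_insert_of_notMem he, Finset.card_insert_of_notMem heA, Finset.union_insert,
    Finset.insert_union]
  ring

theorem P_empty {q : ℝ} (X : Finset I) : P G q X ∅ = q ^ cl (conn G X) := by
  simp [P]

theorem P_bridge {q : ℝ} {X S : Finset I} {e : I} (he : e ∉ S)
    (h : ¬ conn G (X ∪ S) (G.x e) (G.y e)) : P G q X (insert e S) = 0 := by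
  rw [P_insert he, sub_eq_zero]
  unfold P
  rw [Finset.mul_sum]
  refine Finset.sum_congr rfl fun A hA => ?_
  have hA' : A ⊆ S := Finset.mem_powerset.1 hA
  have h1 : ¬ conn G (X ∪ A) (G.x e) (G.y e) := fun h2 =>
    h (conn_mono G (Finset.union_subset_union_right hA') h2)
  have h2 := cl_sup_pr_of_not h1
  rw [← conn_insert] at h2
  rw [Finset.insert_union, ← h2]
  ring

theorem P_loop {q : ℝ} {X S : Finset I} {e : I} (he : e ∉ S)
    (h : conn G X (G.x e) (G.y e)) : P G q X (insert e S) = (q - 1) * P G q X S := by
  rw [P_insert he]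
  have h1 : conn G (insert e X) = conn G X := by
    rw [conn_insert, sup_eq_left.2 (pr_le_iff.2 h)]
  rw [P_congr h1]
  ring

/-- contracting all of `C` -/
theorem P_up {q : ℝ} (hq : 0 ≤ q) {N : ℕ}
    (hn : ∀ X S : Finset I, Disjoint X S → S.card < N → 0 ≤ P G q X S) :
    ∀ (C X T : Finset I), Disjoint C T → Disjoint X (C ∪ T) → (C ∪ T).card ≤ N →
      P G q X (C ∪ T) ≤ q ^ C.card * P G q (X ∪ C) T := by
  intro C
  induction C using Finset.induction_on with
  | empty =>
    intro X T _ _ _
    simp
  | insert c C hc ih =>
    intro X T hCT hX hN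
    rw [Finset.disjoint_insert_left] at hCT
    have hcu : c ∉ C ∪ T := by
      rw [Finset.mem_union]
      exact fun h => h.elim hc hCT.1
    rw [Finset.insert_union] at hX hN ⊢
    rw [Finset.card_insert_of_notMem hcu] at hN
    rw [Finset.disjoint_insert_right] at hX
    rw [P_insert hcu, Finset.card_insert_of_notMem hc]
    have h1 : 0 ≤ P G q X (C ∪ T) := hn X _ hX.2 (by omega)
    have h2 := ih (insert c X) T hCT.2
      (Finset.disjoint_insert_left.2 ⟨hcu, hX.2⟩) (by omega)
    rw [Finset.insert_union, ← Finset.union_insert] at h2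
    have h3 := mul_le_mul_of_nonneg_left h2 hq
    calc q * P G q (insert c X) (C ∪ T) - P G q X (C ∪ T)
        ≤ q * P G q (insert c X) (C ∪ T) := by linarith
      _ ≤ q * (q ^ C.card * P G q (X ∪ insert c C) T) := h3
      _ = q ^ (C.card + 1) * P G q (X ∪ insert c C) T := by ring

/-- the circuit inequality -/
theorem circ {q : ℝ} (hq : 0 ≤ q) {N : ℕ}
    (hn : ∀ X S : Finset I, Disjoint X S → S.card < N → 0 ≤ P G q X S) {e : I} {T : Finset I}
    (heT : e ∉ T) :
    ∀ (B X : Finset I), e ∉ B → Disjoint B T → Disjoint X (insert e (B ∪ T)) →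
      (insert e (B ∪ T)).card ≤ N →
      conn G (X ∪ B) (G.x e) (G.y e) → (∀ b ∈ B, ¬ conn G (X ∪ B.erase b) (G.x e) (G.y e)) →
      (q - 1 - B.card) * q ^ B.card * P G q (X ∪ B) T ≤ P G q X (insert e (B ∪ T)) := by
  intro B
  induction B using Finset.induction_on with
  | empty =>
    intro X _ _ _ _ hc _
    rw [Finset.union_empty] at hc
    rw [Finset.empty_union, P_loop heT hc]
    simp
  | insert b B hb ih =>
    intro X heB hBT hX hN hc hmin
    rw [Finset.disjoint_insert_left] at hBT
    rw [Finset.mem_insert, not_or] at heB
    have heu : e ∉ B ∪ T := by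
      rw [Finset.mem_union]
      exact fun h => h.elim heB.2 heT
    have hbu : b ∉ insert e (B ∪ T) := by
      rw [Finset.mem_insert, Finset.mem_union]
      rintro (h | h | h)
      · exact heB.1 h.symm
      · exact hb h
      · exact hBT.1 h
    have hg : insert e (insert b B ∪ T) = insert b (insert e (B ∪ T)) := by
      rw [Finset.insert_union, Finset.insert_comm]
    rw [hg] at hX hN ⊢
    rw [Finset.disjoint_insert_right] at hX
    rw [Finset.card_insert_of_notMem hbu] at hN
    rw [P_insert hbu, Finset.card_insert_of_notMem hb]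
    have hXB : insert b X ∪ B = X ∪ insert b B := by
      rw [Finset.insert_union, Finset.union_insert]
    have h1 := ih (insert b X) heB.2 hBT.2 (Finset.disjoint_insert_left.2 ⟨hbu, hX.2⟩)
      (by omega) (by rw [hXB]; exact hc) (by
        intro b' hb'
        have h2 := hmin b' (Finset.mem_insert_of_mem hb')
        have hne : b ≠ b' := by rintro rfl; exact hb hb'
        rw [Finset.erase_insert_of_ne hne] at h2
        rwa [Finset.insert_union, ← Finset.union_insert])
    have h2 := P_up hq hn (insert e B) X T
      (Finset.disjoint_insert_left.2 ⟨heT, hBT.2⟩)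
      (by rw [Finset.insert_union]; exact hX.2)
      (by rw [Finset.insert_union]; omega)
    rw [Finset.insert_union, Finset.card_insert_of_notMem heB.2] at h2
    have hmb := hmin b (Finset.mem_insert_self b B)
    rw [Finset.erase_insert hb] at hmb
    have heq : conn G (X ∪ insert e B) = conn G (X ∪ insert b B) := by
      rw [Finset.union_insert, Finset.union_insert, conn_insert, conn_insert]
      rw [Finset.union_insert, conn_insert] at hc
      apply le_antisymm
      · exact sup_le le_sup_left (pr_le_iff.2 hc)
      · refine sup_le le_sup_left (pr_le_iff.2 ?_)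
        rw [sup_pr_iff] at hc
        rw [sup_pr_iff]
        rcases hc with h | ⟨h3, h4⟩ | ⟨h3, h4⟩
        · exact absurd h hmb
        · exact Or.inr (Or.inl ⟨(conn G (X ∪ B)).symm h3, (conn G (X ∪ B)).symm h4⟩)
        · exact Or.inr (Or.inr ⟨h4, h3⟩)
    rw [P_congr heq] at h2
    rw [hXB] at h1
    have h3 := mul_le_mul_of_nonneg_left h1 hq
    push_cast
    calc (q - 1 - ((B.card : ℝ) + 1)) * q ^ (B.card + 1) * P G q (X ∪ insert b B) T
        = q * ((q - 1 - B.card) * q ^ B.card * P G q (X ∪ insert b B) T) -
          q ^ (B.card + 1) * P G q (X ∪ insert b B) T := by ring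
      _ ≤ q * P G q (insert b X) (insert e (B ∪ T)) - P G q X (insert e (B ∪ T)) := by linarith

/-- a minimal connecting set -/
theorem exists_min {X B : Finset I} {e : I} (h : conn G (X ∪ B) (G.x e) (G.y e)) :
    ∃ B' ⊆ B, conn G (X ∪ B') (G.x e) (G.y e) ∧
      ∀ b ∈ B', ¬ conn G (X ∪ B'.erase b) (G.x e) (G.y e) := by
  classical
  induction B using Finset.strongInduction with
  | H B ih =>
    by_cases h1 : ∀ b ∈ B, ¬ conn G (X ∪ B.erase b) (G.x e) (G.y e)
    · exact ⟨B, subset_rfl, h, h1⟩
    · push Not at h1
      obtain ⟨b, hb, h2⟩ := h1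
      obtain ⟨B', h3, h4, h5⟩ := ih (B.erase b) (Finset.erase_ssubset hb) h2
      exact ⟨B', h3.trans (Finset.erase_subset _ _), h4, h5⟩

/-- the induction -/
theorem main_ind {q : ℝ} (hq : 1 < q)
    (hs : ∀ X S : Finset I, Disjoint X S → S.Nonempty → Br G X S →
      (∃ e ∈ S, ∃ B ⊆ S.erase e, (B.card : ℝ) + 1 < q ∧ conn G (X ∪ B) (G.x e) (G.y e)) ∨
      (∃ e ∈ S, ∃ f ∈ S.erase e, ¬ conn G (X ∪ (S.erase e).erase f) (G.x f) (G.y f))) :
    ∀ (N : ℕ) (X S : Finset I), Disjoint X S → S.card < N →
      0 ≤ P G q X S ∧ (Br G X S → 0 < P G q X S) := by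
  intro N
  induction N with
  | zero => intro X S _ h; omega
  | succ N ih =>
    intro X S hXS hN
    have hq0 : 0 < q := by linarith
    have key : Br G X S → 0 < P G q X S := by
      intro hbr
      rcases S.eq_empty_or_nonempty with rfl | hne
      · rw [P_empty]
        positivity
      rcases hs X S hXS hne hbr with ⟨e, he, B, hB, hBq, hc⟩ | ⟨e, he, f, hf, hc⟩
      · obtain ⟨B', hB', hc', hmin⟩ := exists_min hc
        have hB'S : B' ⊆ S.erase e := hB'.trans hB
        have heB' : e ∉ B' := fun h => (Finset.mem_erase.1 (hB'S h)).1 rfl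
        set T := (S.erase e) \ B' with hT
        have heT : e ∉ T := fun h => (Finset.mem_erase.1 (Finset.mem_sdiff.1 h).1).1 rfl
        have hBT : B' ∪ T = S.erase e := by
          rw [hT, Finset.union_sdiff_of_subset hB'S]
        have hSe : insert e (B' ∪ T) = S := by rw [hBT, Finset.insert_erase he]
        have hdBT : Disjoint B' T := Finset.disjoint_sdiff
        have h1 := circ (G := G) hq0.le (N := N) (fun X S h1 h2 => (ih X S h1 h2).1) heT B' X heB'
          hdBT (by rw [hSe]; exact hXS) (by rw [hSe]; omega) hc' hmin
        rw [hSe] at h1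
        have hTc : T.card < N := by
          have h2 : T.card ≤ (S.erase e).card := Finset.card_le_card Finset.sdiff_subset
          have h3 := Finset.card_erase_lt_of_mem he
          omega
        have hdX : Disjoint (X ∪ B') T := by
          rw [Finset.disjoint_union_left]
          refine ⟨?_, hdBT⟩
          exact Finset.disjoint_of_subset_right
            (Finset.sdiff_subset.trans (Finset.erase_subset _ _)) hXS
        have h4 := (ih (X ∪ B') T hdX hTc).2 (by
          intro g hg
          have hgS : g ∈ S := (Finset.mem_erase.1 (Finset.mem_sdiff.1 hg).1).2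
          have h5 := hbr g hgS
          have h6 : conn G (X ∪ S.erase g) ≤ conn G (X ∪ B' ∪ T.erase g) := by
            rw [conn_le_iff]
            intro d hd
            rw [Finset.mem_union, Finset.mem_erase] at hd
            by_cases hde : d = e
            · subst hde
              exact conn_mono G Finset.subset_union_left hc'
            · refine conn_edge ?_
              rw [Finset.mem_union, Finset.mem_union, Finset.mem_erase]
              rcases hd with hd | ⟨hdg, hd⟩
              · exact Or.inl (Or.inl hd)
              · by_cases hdB : d ∈ B'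
                · exact Or.inl (Or.inr hdB)
                · refine Or.inr ⟨hdg, ?_⟩
                  rw [hT, Finset.mem_sdiff, Finset.mem_erase]
                  exact ⟨⟨hde, hd⟩, hdB⟩
          exact h6 h5)
        have h7 : (B'.card : ℝ) ≤ B.card := by exact_mod_cast Finset.card_le_card hB'
        have h8 : 0 < (q - 1 - B'.card) * q ^ B'.card * P G q (X ∪ B') T :=
          mul_pos (mul_pos (by linarith) (by positivity)) h4
        linarith
      · have he' : e ∉ S.erase e := Finset.notMem_erase e S
        have hf' : f ∉ (S.erase e).erase f := Finset.notMem_erase f _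
        have h1 : P G q X (S.erase e) = 0 := by
          rw [← Finset.insert_erase hf]
          exact P_bridge hf' hc
        have h2 : P G q X S = q * P G q (insert e X) (S.erase e) := by
          conv_lhs => rw [← Finset.insert_erase he]
          rw [P_insert he', h1, sub_zero]
        rw [h2]
        have h3 := Finset.card_erase_lt_of_mem he
        refine mul_pos hq0 ((ih (insert e X) (S.erase e) ?_ (by omega)).2 ?_)
        · rw [Finset.disjoint_insert_left]
          exact ⟨he', Finset.disjoint_of_subset_right (Finset.erase_subset _ _) hXS⟩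
        · intro g hg
          rw [Finset.mem_erase] at hg
          have h4 := hbr g hg.2
          have h5 : insert e X ∪ (S.erase e).erase g = X ∪ S.erase g := by
            ext d
            simp only [Finset.mem_union, Finset.mem_insert, Finset.mem_erase]
            constructor
            · rintro ((h | h) | ⟨h6, h7, h8⟩)
              · subst h; exact Or.inr ⟨fun h => hg.1 h.symm, he⟩
              · exact Or.inl h
              · exact Or.inr ⟨h6, h8⟩
            · rintro (h | ⟨h6, h7⟩)
              · exact Or.inl (Or.inr h)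
              · by_cases hde : d = e
                · exact Or.inl (Or.inl hde)
                · exact Or.inr ⟨h6, hde, h7⟩
          rw [h5]
          exact h4
    refine ⟨?_, key⟩
    by_cases hbr : Br G X S
    · exact (key hbr).le
    · unfold Br at hbr
      push Not at hbr
      obtain ⟨e, he, hc⟩ := hbr
      rw [← Finset.insert_erase he, P_bridge (Finset.notMem_erase e S) hc]

end P

end Pool.Agent.TH386.FG
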