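import Mathlib
import Pool.Agent.TH386.FG.Core

set_option autoImplicit false

/-! Dual pairs of multigraphs (graphs in surfaces) and short circuits in their minors. -/

namespace Pool.Agent.TH386.FG

open Finset Pool.Agent.H753R2.FR

/-- the edge `e` crosses the vertex set `K` -/
def cr {V I : Type} (G : MG V I) (K : Set V) (e : I) : Prop := ¬ (G.x e ∈ K ↔ G.y e ∈ K)

/-- no edge is the only one to cross both `K` and `L` -/
def Orth {V I J : Type} (G : MG V I) (H : MG J I) : Prop :=
  ∀ (K : Set V) (L : Set J) (e : I), cr G K e → cr H L e → ∃ e', e' ≠ e ∧ cr G K e' ∧ cr H L e'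

theorem Orth.symm {V I J : Type} {G : MG V I} {H : MG J I} (h : Orth G H) : Orth H G := by
  intro L K e h1 h2
  obtain ⟨e', h3, h4, h5⟩ := h K L e h2 h1
  exact ⟨e', h3, h5, h4⟩

section
variable {V I : Type} [DecidableEq V] [DecidableEq I] [Fintype V] [Fintype I] {G : MG V I}

theorem not_cr_conn {A : Finset I} {a : V} {e : I} (he : e ∈ A) :
    ¬ cr G {v | conn G A a v} e := by
  unfold cr
  rw [not_not]
  simp only [Set.mem_ofPred_eq]
  have h := conn_edge (G := G) he
  exact ⟨fun h1 => (conn G A).trans h1 h, fun h1 => (conn G A).trans h1 ((conn G A).symm h)⟩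

theorem not_cr_of_conn {A : Finset I} {K : Set V} {a b : V} (hA : ∀ g ∈ A, ¬ cr G K g)
    (h : conn G A a b) : a ∈ K ↔ b ∈ K := by
  have h1 : conn G A ≤ Setoid.ker (fun v => v ∈ K) := by
    rw [conn_le_iff]
    intro g hg
    have h2 := hA g hg
    unfold cr at h2
    rw [not_not] at h2
    exact propext h2
  have h3 : (a ∈ K) = (b ∈ K) := h1 h
  rw [h3]

theorem ite_mul_ite (p r : Prop) [Decidable p] [Decidable r] [Decidable (p ∧ r)] :
    (if p then (1 : ZMod 2) else 0) * (if r then 1 else 0) = if p ∧ r then 1 else 0 := by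
  by_cases hp : p
  · by_cases hr : r
    · simp [hp, hr]
    · simp [hr]
  · simp [hp]

open Classical in
theorem ind_cr (K : Set V) (e : I) :
    (if cr G K e then (1 : ZMod 2) else 0) =
      ∑ v ∈ univ.filter (fun v => v ∈ K), (if ¬ (G.x e = v ↔ G.y e = v) then (1 : ZMod 2) else 0) := by
  have h1 : ∀ v, (if ¬ (G.x e = v ↔ G.y e = v) then (1 : ZMod 2) else 0) =
      (if G.x e = v then 1 else 0) + (if G.y e = v then 1 else 0) := by
    intro v
    by_cases hx : G.x e = v <;> by_cases hy : G.y e = v
    · rw [if_neg (by simp [hx, hy]), if_pos hx, if_pos hy]; decide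
    · rw [if_pos (by simp [hx, hy]), if_pos hx, if_neg hy]; decide
    · rw [if_pos (by simp [hx, hy]), if_neg hx, if_pos hy]; decide
    · rw [if_neg (by simp [hx, hy]), if_neg hx, if_neg hy]; decide
  rw [Finset.sum_congr rfl (fun v _ => h1 v), Finset.sum_add_distrib, Finset.sum_ite_eq,
    Finset.sum_ite_eq]
  simp only [Finset.mem_filter, Finset.mem_univ, true_and]
  unfold cr
  by_cases hx : G.x e ∈ K <;> by_cases hy : G.y e ∈ K
  · rw [if_neg (by simp [hx, hy]), if_pos hx, if_pos hy]; decide
  · rw [if_pos (by simp [hx, hy]), if_pos hx, if_neg hy]; decide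
  · rw [if_pos (by simp [hx, hy]), if_neg hx, if_pos hy]; decide
  · rw [if_neg (by simp [hx, hy]), if_neg hx, if_neg hy]; decide

variable {J : Type} [DecidableEq J] [Fintype J] {H : MG J I}

theorem orth_of_even
    (h : ∀ (v : V) (j : J), Even ((univ.filter (fun e : I =>
      ¬ (G.x e = v ↔ G.y e = v) ∧ ¬ (H.x e = j ↔ H.y e = j))).card)) : Orth G H := by
  classical
  intro K L e h1 h2
  by_contra hcon
  push Not at hcon
  have hsum : ∑ e' : I, (if cr G K e' then (1 : ZMod 2) else 0) * (if cr H L e' then 1 else 0) = 0 := by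
    simp only [ind_cr, Finset.sum_mul_sum]
    rw [Finset.sum_comm]
    refine Finset.sum_eq_zero fun v _ => ?_
    rw [Finset.sum_comm]
    refine Finset.sum_eq_zero fun j _ => ?_
    have h3 : ∀ e' : I, (if ¬ (G.x e' = v ↔ G.y e' = v) then (1 : ZMod 2) else 0) *
        (if ¬ (H.x e' = j ↔ H.y e' = j) then 1 else 0) =
        if (¬ (G.x e' = v ↔ G.y e' = v) ∧ ¬ (H.x e' = j ↔ H.y e' = j)) then 1 else 0 := by
      intro e'
      exact ite_mul_ite _ _
    rw [Finset.sum_congr rfl (fun e' _ => h3 e'), ← Finset.natCast_card_filter]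
    exact (ZMod.natCast_eq_zero_iff_even).2 (h v j)
  rw [Finset.sum_eq_single e] at hsum
  · rw [if_pos h1, if_pos h2] at hsum
    exact absurd hsum (by decide)
  · intro e' _ hne
    by_cases h3 : cr G K e'
    · rw [if_neg (hcon e' hne h3), mul_zero]
    · rw [if_neg h3, zero_mul]
  · intro h3
    exact absurd (Finset.mem_univ e) h3

/-- the nullity of `X` is at least the number of new components of the dual graph -/
theorem null_le (ho : Orth G H) (X : Finset I) :
    cl (conn H Xᶜ) + Fintype.card V ≤ X.card + cl (conn G X) + cl (conn H univ) := by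
  induction X using Finset.induction_on with
  | empty =>
    rw [conn_empty, cl_bot, Finset.compl_empty, Finset.card_empty]
    omega
  | insert e X he ih =>
    have hX : Xᶜ = insert e (insert e X)ᶜ := by
      ext d
      simp only [Finset.mem_compl, Finset.mem_insert, not_or]
      constructor
      · intro h
        by_cases hd : d = e
        · exact Or.inl hd
        · exact Or.inr ⟨hd, h⟩
      · rintro (h | h)
        · rw [h]; exact he
        · exact h.2
    rw [hX, conn_insert] at ih
    rw [Finset.card_insert_of_notMem he]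
    have h1 := a1_cl_le_succ (conn G X) (G.x e) (G.y e)
    rw [← conn_insert] at h1
    by_cases hc : conn H (insert e X)ᶜ (H.x e) (H.y e)
    · rw [cl_sup_pr_of_rel hc] at ih
      omega
    · have h2 := cl_sup_pr_of_not hc
      have h3 : conn G X (G.x e) (G.y e) := by
        by_contra hcon
        obtain ⟨e', h4, h5, h6⟩ := ho {v | conn G X (G.x e) v} {j | conn H (insert e X)ᶜ (H.x e) j} e
          (fun h => hcon (h.1 ((conn G X).refl _)))
          (fun h => hc (h.1 ((conn H (insert e X)ᶜ).refl _)))
        by_cases h7 : e' ∈ X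
        · exact not_cr_conn h7 h5
        · refine not_cr_conn (e := e') ?_ h6
          rw [Finset.mem_compl, Finset.mem_insert, not_or]
          exact ⟨h4, h7⟩
      have h8 : cl (conn G (insert e X)) = cl (conn G X) := by
        rw [conn_insert, cl_sup_pr_of_rel h3]
      omega

open Classical in
/-- counting classes touched by the edges of `S` -/
theorem count (G : MG V I) (X S : Finset I) (d : ℕ)
    (hd : ∀ a : V, (S.filter (fun e => cr G {v | conn G X a v} e)).Nonempty →
      d ≤ (S.filter (fun e => cr G {v | conn G X a v} e)).card) :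
    cl (conn G X) ≤ cl (conn G (X ∪ S)) ∨
      ∃ N, cl (conn G X) + 1 ≤ N + cl (conn G (X ∪ S)) ∧ d * N ≤ 2 * S.card := by
  have hle : conn G X ≤ conn G (X ∪ S) := conn_mono G Finset.subset_union_left
  have : Fintype (Quotient (conn G X)) := Fintype.ofFinite _
  have : Fintype (Quotient (conn G (X ∪ S))) := Fintype.ofFinite _
  set δ : Quotient (conn G X) → Finset I := fun κ =>
    S.filter (fun e => ¬ (Quotient.mk (conn G X) (G.x e) = κ ↔ Quotient.mk (conn G X) (G.y e) = κ))
    with hδ
  have hmk : ∀ a v : V, Quotient.mk (conn G X) v = Quotient.mk (conn G X) a ↔ conn G X a v := by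
    intro a v
    constructor
    · intro h
      exact (conn G X).symm (Quotient.exact h)
    · intro h
      exact Quotient.sound ((conn G X).symm h)
  have hδa : ∀ a, δ (Quotient.mk (conn G X) a) =
      S.filter (fun e => cr G {v | conn G X a v} e) := by
    intro a
    rw [hδ]
    refine Finset.filter_congr fun e _ => ?_
    rw [hmk, hmk]
    rfl
  set Tc : Finset (Quotient (conn G X)) := univ.filter (fun κ => (δ κ).Nonempty) with hTc
  have hinj : ∀ κ, κ ∉ Tc → ∀ κ', a1_map hle κ = a1_map hle κ' → κ = κ' := by
    intro κ hκ κ' heq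
    induction κ using Quotient.inductionOn with
    | h a =>
    induction κ' using Quotient.inductionOn with
    | h b =>
    rw [a1_map_mk, a1_map_mk] at heq
    have h1 : conn G (X ∪ S) a b := Quotient.exact heq
    have h2 : a ∈ {v | conn G X a v} ↔ b ∈ {v | conn G X a v} := by
      refine not_cr_of_conn (A := X ∪ S) (fun g hg => ?_) h1
      by_cases hgX : g ∈ X
      · exact not_cr_conn hgX
      · have hgS : g ∈ S := (Finset.mem_union.1 hg).resolve_left hgX
        intro hcr
        apply hκ
        rw [hTc, Finset.mem_filter]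
        refine ⟨Finset.mem_univ _, g, ?_⟩
        rw [hδa, Finset.mem_filter]
        exact ⟨hgS, hcr⟩
    exact ((hmk a b).2 (h2.1 ((conn G X).refl a))).symm
  have hcl1 : cl (conn G X) = Fintype.card (Quotient (conn G X)) := Nat.card_eq_fintype_card
  have hcl2 : cl (conn G (X ∪ S)) = Fintype.card (Quotient (conn G (X ∪ S))) :=
    Nat.card_eq_fintype_card
  rcases Tc.eq_empty_or_nonempty with hT | ⟨κ₀, hκ₀⟩
  · left
    rw [hcl1, hcl2]
    refine Fintype.card_le_of_injective (a1_map hle) fun κ κ' h => hinj κ ?_ κ' h
    rw [hT]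
    exact Finset.notMem_empty κ
  · right
    refine ⟨Tc.card, ?_, ?_⟩
    · have h1 : ((univ \ Tc).image (a1_map hle)).card = (univ \ Tc).card := by
        refine Finset.card_image_of_injOn fun κ hκ κ' _ h => hinj κ ?_ κ' h
        have hκ' : κ ∈ univ \ Tc := hκ
        exact (Finset.mem_sdiff.1 hκ').2
      have h2 : a1_map hle κ₀ ∉ (univ \ Tc).image (a1_map hle) := by
        intro h3
        rw [Finset.mem_image] at h3
        obtain ⟨κ, h4, h5⟩ := h3
        have h6 := (Finset.mem_sdiff.1 h4).2
        have h7 := hinj κ h6 κ₀ h5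
        rw [h7] at h6
        exact h6 hκ₀
      have h3 := Finset.card_le_univ (insert (a1_map hle κ₀) ((univ \ Tc).image (a1_map hle)))
      rw [Finset.card_insert_of_notMem h2, h1] at h3
      have h4 : (univ \ Tc).card + Tc.card = Fintype.card (Quotient (conn G X)) := by
        rw [Finset.card_sdiff_add_card_eq_card (Finset.subset_univ _), Finset.card_univ]
      rw [hcl1, hcl2]
      omega
    · have h1 : Tc.card * d ≤ ∑ κ ∈ Tc, (δ κ).card := by
        rw [← smul_eq_mul]
        refine Finset.card_nsmul_le_sum _ _ _ fun κ hκ => ?_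
        rw [hTc, Finset.mem_filter] at hκ
        have h2 := hκ.2
        induction κ using Quotient.inductionOn with
        | h a =>
        rw [hδa] at h2 ⊢
        exact hd a h2
      have h2 : ∑ κ ∈ Tc, (δ κ).card ≤ ∑ κ, (δ κ).card :=
        Finset.sum_le_sum_of_subset (Finset.subset_univ _)
      have h3 : ∑ κ, (δ κ).card = ∑ e ∈ S, (univ.filter (fun κ : Quotient (conn G X) =>
          ¬ (Quotient.mk (conn G X) (G.x e) = κ ↔ Quotient.mk (conn G X) (G.y e) = κ))).card := by
        simp only [hδ, Finset.card_filter]
        rw [Finset.sum_comm]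
      have h4 : ∀ e ∈ S, (univ.filter (fun κ : Quotient (conn G X) =>
          ¬ (Quotient.mk (conn G X) (G.x e) = κ ↔ Quotient.mk (conn G X) (G.y e) = κ))).card ≤ 2 := by
        intro e _
        have h5 : (univ.filter (fun κ : Quotient (conn G X) =>
            ¬ (Quotient.mk (conn G X) (G.x e) = κ ↔ Quotient.mk (conn G X) (G.y e) = κ))) ⊆
            {Quotient.mk (conn G X) (G.x e), Quotient.mk (conn G X) (G.y e)} := by
          intro κ hκ
          rw [Finset.mem_filter] at hκ
          rw [Finset.mem_insert, Finset.mem_singleton]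
          by_contra h6
          push Not at h6
          exact hκ.2 ⟨fun h => absurd h.symm h6.1, fun h => absurd h.symm h6.2⟩
        exact (Finset.card_le_card h5).trans Finset.card_le_two
      have h5 := Finset.sum_le_sum h4
      rw [Finset.sum_const, smul_eq_mul] at h5
      rw [mul_comm d, mul_comm 2]
      omega

/-- a minimal connecting set is independent -/
theorem card_min {X B : Finset I} {e : I} (hc : conn G (X ∪ B) (G.x e) (G.y e))
    (hmin : ∀ b ∈ B, ¬ conn G (X ∪ B.erase b) (G.x e) (G.y e)) :
    B.card + cl (conn G (X ∪ B)) = cl (conn G X) := by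
  have hind : ∀ b ∈ B, ¬ conn G (X ∪ B.erase b) (G.x b) (G.y b) := by
    intro b hb h
    apply hmin b hb
    have h1 : conn G (X ∪ B) ≤ conn G (X ∪ B.erase b) := by
      rw [conn_le_iff]
      intro g hg
      by_cases hgb : g = b
      · rw [hgb]; exact h
      · refine conn_edge ?_
        rw [Finset.mem_union, Finset.mem_erase]
        rcases Finset.mem_union.1 hg with h2 | h2
        · exact Or.inl h2
        · exact Or.inr ⟨hgb, h2⟩
    exact h1 hc
  have key : ∀ C ⊆ B, C.card + cl (conn G (X ∪ C)) = cl (conn G X) := by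
    intro C
    induction C using Finset.induction_on with
    | empty => intro _; simp
    | insert c C hcC ih =>
      intro hCB
      have h1 := ih ((Finset.subset_insert _ _).trans hCB)
      have hcB : c ∈ B := hCB (Finset.mem_insert_self _ _)
      have h2 : ¬ conn G (X ∪ C) (G.x c) (G.y c) := by
        intro h
        refine hind c hcB (conn_mono G (Finset.union_subset_union_right ?_) h)
        intro g hg
        rw [Finset.mem_erase]
        refine ⟨?_, hCB (Finset.mem_insert_of_mem hg)⟩
        rintro rfl
        exact hcC hg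
      have h3 := cl_sup_pr_of_not h2
      rw [← conn_insert, ← Finset.union_insert] at h3
      rw [Finset.card_insert_of_notMem hcC]
      omega
  exact key B subset_rfl

open Classical in
/-- every bridgeless minor of a graph in a surface has a short circuit or a series pair -/
theorem short (ho : Orth G H) {g k : ℕ}
    (hE : Fintype.card I + cl (conn G univ) + cl (conn H univ) ≤
      Fintype.card V + Fintype.card J + g) (hk5 : 5 ≤ k) (hkg : 2 * g + 2 ≤ k)
    {X S : Finset I} (hXS : Disjoint X S) (hne : S.Nonempty) (hbr : Br G X S) :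
    (∃ e ∈ S, ∃ B ⊆ S.erase e, B.card + 1 ≤ k ∧ conn G (X ∪ B) (G.x e) (G.y e)) ∨
      (∃ e ∈ S, ∃ f ∈ S.erase e, ¬ conn G (X ∪ (S.erase e).erase f) (G.x f) (G.y f)) := by
  by_contra hcon
  push Not at hcon
  obtain ⟨hA, hB⟩ := hcon
  set Y := (X ∪ S)ᶜ with hY
  have hYS : Y ∪ S = Xᶜ := by
    ext d
    rw [hY]
    simp only [Finset.mem_union, Finset.mem_compl, not_or]
    constructor
    · rintro (h | h)
      · exact h.1
      · exact fun h2 => (Finset.disjoint_left.1 hXS h2) h
    · intro h
      by_cases hd : d ∈ S
      · exact Or.inr hd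
      · exact Or.inl ⟨h, hd⟩
  have hYc : Yᶜ = X ∪ S := by rw [hY, compl_compl]
  have hcard : X.card + S.card + Y.card = Fintype.card I := by
    have h1 := Finset.card_union_of_disjoint hXS
    have h2 := Finset.card_add_card_compl (X ∪ S)
    rw [← hY] at h2
    omega
  -- Euler
  have hE1 := null_le ho X
  have hE2 := null_le ho.symm Y
  rw [← hYS] at hE1
  rw [hYc] at hE2
  -- vertices
  have hV := count G X S 3 (by
    intro a hn
    obtain ⟨f, hf⟩ := hn
    by_contra h3
    push Not at h3
    set D := S.filter (fun e => cr G {v | conn G X a v} e) with hD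
    have hfS : f ∈ S := (Finset.mem_filter.1 hf).1
    have hfc : cr G {v | conn G X a v} f := (Finset.mem_filter.1 hf).2
    rcases (D.erase f).eq_empty_or_nonempty with he | ⟨e, he⟩
    · refine hfc (not_cr_of_conn (A := X ∪ S.erase f) (fun g hg hgc => ?_) (hbr f hfS))
      rcases Finset.mem_union.1 hg with h4 | h4
      · exact not_cr_conn h4 hgc
      · rw [Finset.mem_erase] at h4
        have h5 : g ∈ D.erase f := by
          rw [Finset.mem_erase, hD, Finset.mem_filter]
          exact ⟨h4.1, h4.2, hgc⟩
        rw [he] at h5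
        exact absurd h5 (Finset.notMem_empty g)
    · have heD := (Finset.mem_erase.1 he).2
      have hef := (Finset.mem_erase.1 he).1
      have heS : e ∈ S := (Finset.mem_filter.1 heD).1
      have hfe : f ∈ S.erase e := Finset.mem_erase.2 ⟨hef.symm, hfS⟩
      refine hfc (not_cr_of_conn (A := X ∪ (S.erase e).erase f) (fun g hg hgc => ?_)
        (hB e heS f hfe))
      rcases Finset.mem_union.1 hg with h4 | h4
      · exact not_cr_conn h4 hgc
      · rw [Finset.mem_erase, Finset.mem_erase] at h4
        have h5 : g ∈ D := by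
          rw [hD, Finset.mem_filter]
          exact ⟨h4.2.2, hgc⟩
        have h6 : ({g, e, f} : Finset I) ⊆ D := by
          intro d hd
          simp only [Finset.mem_insert, Finset.mem_singleton] at hd
          rcases hd with rfl | rfl | rfl
          · exact h5
          · exact heD
          · exact hf
        have h7 := Finset.card_le_card h6
        rw [Finset.card_insert_of_notMem, Finset.card_insert_of_notMem,
          Finset.card_singleton] at h7
        · omega
        · rw [Finset.mem_singleton]; exact hef
        · rw [Finset.mem_insert, Finset.mem_singleton]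
          rintro (h | h)
          · exact h4.2.1 h
          · exact h4.1 h)
  obtain ⟨e₀, he₀⟩ := hne
  rcases hV with hV | ⟨N, hN1, hN2⟩
  · have h1 := cl_anti (conn_mono G (Finset.subset_union_left : X ⊆ X ∪ S))
    have h2 := eq_of_cl_eq (conn_mono G (Finset.subset_union_left : X ⊆ X ∪ S))
      (le_antisymm hV h1)
    have h3 : conn G (X ∪ S) (G.x e₀) (G.y e₀) := conn_edge (Finset.mem_union_right _ he₀)
    rw [← h2] at h3
    refine hA e₀ he₀ ∅ (Finset.empty_subset _) (by rw [Finset.card_empty]; omega) ?_
    rw [Finset.union_empty]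
    exact h3
  -- a short circuit exists if there are few vertices
  have hNk : k + 1 ≤ N := by
    obtain ⟨B, hBS, hc, hmin⟩ := exists_min (hbr e₀ he₀)
    have h1 : k < B.card + 1 := by
      by_contra h
      push Not at h
      exact hA e₀ he₀ B hBS h hc
    have h2 := card_min hc hmin
    have h3 := cl_anti (conn_mono G (Finset.union_subset_union_right
      (hBS.trans (Finset.erase_subset _ _)) : X ∪ B ⊆ X ∪ S))
    omega
  -- faces
  have hF := count H Y S (k + 1) (by
    intro a hn
    obtain ⟨e, he⟩ := hn
    by_contra h3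
    push Not at h3
    set D := S.filter (fun e => cr H {v | conn H Y a v} e) with hD
    have heS : e ∈ S := (Finset.mem_filter.1 he).1
    have hec : cr H {v | conn H Y a v} e := (Finset.mem_filter.1 he).2
    have hcB : (D.erase e).card + 1 ≤ k := by
      rw [Finset.card_erase_add_one he]
      omega
    refine hA e heS (D.erase e) (Finset.erase_subset_erase _ (Finset.filter_subset _ _)) hcB ?_
    by_contra hnc
    obtain ⟨e', h4, h5, h6⟩ := ho {v | conn G (X ∪ D.erase e) (G.x e) v} {v | conn H Y a v} e
      (fun h => hnc (h.1 ((conn G (X ∪ D.erase e)).refl _))) hec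
    by_cases h7 : e' ∈ X
    · exact not_cr_conn (Finset.mem_union_left _ h7) h5
    by_cases h8 : e' ∈ S
    · refine not_cr_conn (Finset.mem_union_right _ ?_) h5
      rw [Finset.mem_erase, hD, Finset.mem_filter]
      exact ⟨h4, h8, h6⟩
    · refine not_cr_conn (e := e') ?_ h6
      rw [hY, Finset.mem_compl, Finset.mem_union, not_or]
      exact ⟨h7, h8⟩)
  rcases hF with hF | ⟨M, hM1, hM2⟩
  · omega
  · have h1 : S.card + 2 ≤ N + M + g := by omega
    rcases Nat.lt_or_ge g 2 with hg | hg
    · have h2 : 6 * M ≤ 2 * S.card := by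
        calc 6 * M ≤ (k + 1) * M := Nat.mul_le_mul_right _ (by omega)
          _ ≤ 2 * S.card := hM2
      omega
    · have h2 : (2 * g + 3) * M ≤ 2 * S.card := by
        calc (2 * g + 3) * M ≤ (k + 1) * M := Nat.mul_le_mul_right _ (by omega)
          _ ≤ 2 * S.card := hM2
      have h3 : 2 * g + 3 ≤ N := by omega
      zify at h1 h2 h3 hN2 hg
      nlinarith [mul_le_mul_of_nonneg_left h3 (by linarith : (0 : ℤ) ≤ 2 * g - 3)]

end

end Pool.Agent.TH386.FG
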